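import Pool.Agent.H14R3.KK.Defs

/-! Task CLOSEC of project KK (MP_d47e08_pr). -/

set_option autoImplicit false
open MeasureTheory ProbabilityTheory Filter Topology

namespace KK14.CLOSECx

lemma cardI {n q l : ℕ} (I K : Sub n l) (S : Sub n (2 * q)) (h : symmDiff I.1 K.1 = S.1) :
    (S.1 ∩ I.1).card = q := by
  have h1 : S.1 ∩ I.1 = I.1 \ K.1 := by
    rw [← h]
    ext x
    simp only [Finset.mem_inter, Finset.mem_symmDiff, Finset.mem_sdiff]
    tauto
  have h2 : (symmDiff I.1 K.1).card = (I.1 \ K.1).card + (K.1 \ I.1).card := by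
    have : symmDiff I.1 K.1 = (I.1 \ K.1) ∪ (K.1 \ I.1) := rfl
    rw [this, Finset.card_union_of_disjoint]
    rw [Finset.disjoint_left]
    intro x hx hx'
    simp only [Finset.mem_sdiff] at hx hx'
    exact hx'.2 hx.1
  have h3 : (I.1 \ K.1).card = (K.1 \ I.1).card := by
    have a := Finset.card_sdiff_add_card_inter I.1 K.1
    have b := Finset.card_sdiff_add_card_inter K.1 I.1
    rw [Finset.inter_comm K.1 I.1] at b
    rw [I.2] at a
    rw [K.2] at b
    omega
  rw [h, S.2] at h2
  rw [h1]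
  omega

lemma inner {n q l : ℕ} (I : Sub n l) (O : Sub n (2 * q) → ℕ) (S : Sub n (2 * q)) :
    ∑ K : Sub n l, (if symmDiff I.1 K.1 = S.1 then q * O S else 0) ≤
      O S * (S.1 ∩ I.1).card := by
  by_cases h : ∃ K : Sub n l, symmDiff I.1 K.1 = S.1
  · obtain ⟨K0, h0⟩ := h
    have h1 : ∀ K : Sub n l, (if symmDiff I.1 K.1 = S.1 then q * O S else 0) =
        if K = K0 then q * O S else 0 := by
      intro K
      by_cases hK : K = K0
      · rw [hK, if_pos h0, if_pos rfl]
      · rw [if_neg hK, if_neg]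
        intro h2
        apply hK
        apply Subtype.ext
        exact symmDiff_right_injective I.1 (h2.trans h0.symm)
    rw [Finset.sum_congr rfl fun K _ => h1 K, Finset.sum_ite_eq', if_pos (Finset.mem_univ _),
      cardI I K0 S h0, mul_comm]
  · push Not at h
    rw [Finset.sum_eq_zero fun K _ => if_neg (h K)]
    exact Nat.zero_le _

lemma swap {n q l : ℕ} (I : Sub n l) (O : Sub n (2 * q) → ℕ) :
    ∑ S : Sub n (2 * q), O S * (S.1 ∩ I.1).card = ∑ x ∈ I.1, occ O x := by
  unfold occ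
  rw [Finset.sum_comm]
  refine Finset.sum_congr rfl fun S _ => ?_
  rw [← Finset.sum_filter, Finset.sum_const, smul_eq_mul, mul_comm]
  congr 2
  ext x
  simp only [Finset.mem_inter, Finset.mem_filter]
  tauto

lemma main {n q l : ℕ} (I : Sub n l) (O : Sub n (2 * q) → ℕ) :
    q * ∑ K : Sub n l, (if h : (symmDiff I.1 K.1).card = 2 * q then
        O ⟨symmDiff I.1 K.1, h⟩ else 0) ≤ ∑ x ∈ I.1, occ O x := by
  rw [← swap, Finset.mul_sum]
  calc ∑ K : Sub n l, q * (if h : (symmDiff I.1 K.1).card = 2 * q then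
        O ⟨symmDiff I.1 K.1, h⟩ else 0)
      = ∑ K : Sub n l, ∑ S : Sub n (2 * q), (if symmDiff I.1 K.1 = S.1 then q * O S else 0) := by
        refine Finset.sum_congr rfl fun K _ => ?_
        by_cases h : (symmDiff I.1 K.1).card = 2 * q
        · rw [dif_pos h]
          rw [Finset.sum_eq_single (⟨symmDiff I.1 K.1, h⟩ : Sub n (2 * q))]
          · rw [if_pos rfl]
          · intro S _ hS
            rw [if_neg]
            intro h2
            exact hS (Subtype.ext h2.symm)
          · intro h2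
            exact absurd (Finset.mem_univ _) h2
        · rw [dif_neg h, mul_zero]
          symm
          refine Finset.sum_eq_zero fun S _ => if_neg ?_
          intro h2
          exact h (by rw [h2]; exact S.2)
    _ = ∑ S : Sub n (2 * q), ∑ K : Sub n l, (if symmDiff I.1 K.1 = S.1 then q * O S else 0) :=
        Finset.sum_comm
    _ ≤ _ := Finset.sum_le_sum fun S _ => inner I O S

end KK14.CLOSECx

namespace KK14

theorem CLOSEC (n q l : ℕ) (I : Sub n l) (O : Sub n (2 * q) → ℕ) (b : Fin n → ℕ)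
    (h : ∀ x ∈ I.1, occ O x ≤ 2 * b x + 1) :
    (q : ℝ) * ∑ K : Sub n l, (if h : (symmDiff I.1 K.1).card = 2 * q then
        (O ⟨symmDiff I.1 K.1, h⟩ : ℝ) else 0) ≤ l + 2 * ∑ x, (b x : ℝ) := by
  have h1 := CLOSECx.main I O
  have h2 : ∑ x ∈ I.1, occ O x ≤ l + 2 * ∑ x, b x := by
    calc ∑ x ∈ I.1, occ O x ≤ ∑ x ∈ I.1, (2 * b x + 1) := Finset.sum_le_sum h
      _ = 2 * ∑ x ∈ I.1, b x + l := by
        rw [Finset.sum_add_distrib, ← Finset.mul_sum, Finset.sum_const, I.2]
        simp
      _ ≤ 2 * ∑ x, b x + l := by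
        gcongr
        exact Finset.subset_univ _
      _ = _ := by ring
  have h3 := h1.trans h2
  have h4 : (((q * ∑ K : Sub n l, (if h : (symmDiff I.1 K.1).card = 2 * q then
        O ⟨symmDiff I.1 K.1, h⟩ else 0) : ℕ)) : ℝ) ≤ ((l + 2 * ∑ x, b x : ℕ) : ℝ) := by
    exact_mod_cast h3
  push_cast at h4
  convert h4 using 3
  split_ifs <;> simp

end KK14
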